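import Pool.Agent.Y990.OA.Stm

/-!
# The total contribution of the thin sets
-/

set_option autoImplicit false

open MeasureTheory Set

namespace Pool.Agent.Y606.OA

open Pool.Agent.Y990.CB Pool.Agent.Y990.OA

noncomputable section

variable {d : ℕ}

lemma mem_Bo_zero {x : Z d} {n : ℕ} : x ∈ Bo (0 : Z d) n ↔ nm x ≤ n := by
  rw [nm_le]
  unfold Bo
  simp

lemma fin_aux (X : Set (Z d)) (n : ℕ) : (X ∩ Bo 0 n).Finite :=
  (Bo_finite 0 n).subset inter_subset_right

/-- many vertices -/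
lemma count_aux {X : Set (Z d)} {s e n : ℕ} (h : ∀ j, s ≤ j → j ≤ e → ∃ y ∈ X, nm y = j)
    (hen : e ≤ n) : e + 1 - s ≤ (fin_aux X n).toFinset.card := by
  have h1 : Finset.Icc s e ⊆ ((fin_aux X n).toFinset).image nm := by
    intro j hj
    rw [Finset.mem_Icc] at hj
    obtain ⟨y, hy, hyj⟩ := h j hj.1 hj.2
    rw [Finset.mem_image]
    exact ⟨y, (Set.Finite.mem_toFinset _).2 ⟨hy, mem_Bo_zero.2 (by omega)⟩, hyj⟩
  have h2 := Finset.card_le_card h1
  rw [Nat.card_Icc] at h2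
  have h3 := Finset.card_image_le (s := (fin_aux X n).toFinset) (f := nm)
  omega

/-- the contribution of one set -/
lemma rel_aux {X : Set (Z d)} {a b L : ℕ} {t : ℝ} (hbL : b < L) (ht : 1 ≤ t)
    (hX : ∀ x ∈ X, ∀ j : ℕ, nm x ≤ j → j ≤ L → ∃ y ∈ X, nm y = j) :
    ∑ m ∈ Finset.Ico a b, (if ((X ∩ Bo 0 (m + 1)).ncard : ℝ) < t then
      √((X ∩ Bo 0 (m + 1)).ncard : ℝ) else 0) ≤ t * √t := by
  classical
  have hst : 0 ≤ √t := Real.sqrt_nonneg t
  rcases X.eq_empty_or_nonempty with rfl | hne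
  · simp only [empty_inter, ncard_empty, Nat.cast_zero, Real.sqrt_zero, ite_self,
      Finset.sum_const_zero]
    positivity
  obtain ⟨x0, hx0, hmin⟩ := (measure (nm : Z d → ℕ)).wf.has_min X hne
  have hmin' : ∀ x ∈ X, nm x0 ≤ nm x := fun x hx => not_lt.1 (hmin x hx)
  set S := (Finset.Ico a b).filter (fun m => ((X ∩ Bo 0 (m + 1)).ncard : ℝ) < t ∧
    1 ≤ (X ∩ Bo 0 (m + 1)).ncard) with hSdef
  have hS : ∀ m ∈ S, nm x0 ≤ m + 1 ∧ ((m + 1 - nm x0 : ℕ) : ℝ) < t - 1 := by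
    intro m hm
    rw [hSdef, Finset.mem_filter, Finset.mem_Ico] at hm
    obtain ⟨⟨_, hmb⟩, hlt, h1⟩ := hm
    have hne' : (X ∩ Bo 0 (m + 1)).Nonempty := by
      rw [← Set.ncard_pos (fin_aux X (m + 1))]
      omega
    obtain ⟨y, hy, hym⟩ := hne'
    have hr : nm x0 ≤ m + 1 := (hmin' y hy).trans (mem_Bo_zero.1 hym)
    refine ⟨hr, ?_⟩
    have h2 := count_aux (X := X) (s := nm x0) (e := m + 1) (n := m + 1)
      (fun j hj hj' => hX x0 hx0 j hj (by omega)) le_rfl
    rw [← Set.ncard_eq_toFinset_card _ (fin_aux X (m + 1))] at h2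
    have h3 : m + 1 - nm x0 + 1 ≤ (X ∩ Bo 0 (m + 1)).ncard := by omega
    have h4 : ((m + 1 - nm x0 : ℕ) : ℝ) + 1 ≤ ((X ∩ Bo 0 (m + 1)).ncard : ℝ) := by
      exact_mod_cast h3
    linarith
  have hcard : (S.card : ℝ) ≤ t := by
    have h5 : S.card ≤ (Finset.range ⌈t - 1⌉₊).card := by
      apply Finset.card_le_card_of_injOn (fun m => m + 1 - nm x0)
      · intro m hm
        rw [Finset.mem_coe, Finset.mem_range, Nat.lt_ceil]
        exact (hS m hm).2
      · intro m hm m' hm' h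
        have h6 := (hS m hm).1
        have h7 := (hS m' hm').1
        simp only at h
        omega
    rw [Finset.card_range] at h5
    have h8 := Nat.ceil_lt_add_one (show 0 ≤ t - 1 by linarith)
    have h9 : (S.card : ℝ) ≤ (⌈t - 1⌉₊ : ℝ) := by exact_mod_cast h5
    linarith
  calc ∑ m ∈ Finset.Ico a b, (if ((X ∩ Bo 0 (m + 1)).ncard : ℝ) < t then
      √((X ∩ Bo 0 (m + 1)).ncard : ℝ) else 0)
      ≤ ∑ m ∈ Finset.Ico a b, (if ((X ∩ Bo 0 (m + 1)).ncard : ℝ) < t ∧
        1 ≤ (X ∩ Bo 0 (m + 1)).ncard then √t else 0) := by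
        apply Finset.sum_le_sum
        intro m _
        by_cases h1 : ((X ∩ Bo 0 (m + 1)).ncard : ℝ) < t
        · rw [if_pos h1]
          by_cases h2 : 1 ≤ (X ∩ Bo 0 (m + 1)).ncard
          · rw [if_pos ⟨h1, h2⟩]
            exact Real.sqrt_le_sqrt h1.le
          · rw [if_neg (fun h => h2 h.2)]
            have h3 : (X ∩ Bo 0 (m + 1)).ncard = 0 := by omega
            rw [h3]
            simp
        · rw [if_neg h1, if_neg (fun h => h1 h.1)]
    _ = S.card * √t := by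
        rw [← Finset.sum_filter, Finset.sum_const, nsmul_eq_mul]
    _ ≤ t * √t := mul_le_mul_of_nonneg_right hcard hst

/-- THIN: the total contribution of the thin sets. -/
theorem thin : S_thin := by
  classical
  intro d a b L t F hbL ht hF
  obtain ⟨hdis, hX⟩ := hF
  have hst : 0 ≤ √t := Real.sqrt_nonneg t
  have hbL' : (b : ℝ) < L := by exact_mod_cast hbL
  unfold Tn
  rw [Finset.sum_comm]
  have h1 : ∑ X ∈ F, ∑ m ∈ Finset.Ico a b, (if ((X ∩ Bo 0 (m + 1)).ncard : ℝ) < t then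
      √((X ∩ Bo 0 (m + 1)).ncard : ℝ) else 0) ≤
      ∑ X ∈ F, if (∃ x ∈ X, nm x ≤ b) then t * √t else 0 := by
    apply Finset.sum_le_sum
    intro X hXF
    by_cases hr : ∃ x ∈ X, nm x ≤ b
    · rw [if_pos hr]
      exact rel_aux hbL ht (fun x hx j hj hj' => (hX X hXF).2 x hx j hj hj')
    · rw [if_neg hr]
      apply le_of_eq
      apply Finset.sum_eq_zero
      intro m hm
      rw [Finset.mem_Ico] at hm
      have h2 : X ∩ Bo 0 (m + 1) = ∅ := by
        rw [Set.eq_empty_iff_forall_notMem]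
        rintro x ⟨hx, hx'⟩
        exact hr ⟨x, hx, (mem_Bo_zero.1 hx').trans (by omega)⟩
      rw [h2, Set.ncard_empty]
      simp
  rw [← Finset.sum_filter, Finset.sum_const, nsmul_eq_mul] at h1
  set F' := F.filter (fun X => ∃ x ∈ X, nm x ≤ b) with hF'
  have h3 : F'.card * (L - b) ≤ (2 * L + 1) ^ d := by
    have h4 : (F'.biUnion fun X => (fin_aux X L).toFinset).card =
        ∑ X ∈ F', (fin_aux X L).toFinset.card := by
      apply Finset.card_biUnion
      intro X hX1 Y hY1 hXY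
      show Disjoint (fin_aux X L).toFinset (fin_aux Y L).toFinset
      rw [Finset.disjoint_left]
      intro x hx hy
      rw [Set.Finite.mem_toFinset] at hx hy
      have h5 := hdis X (Finset.mem_filter.1 hX1).1 Y (Finset.mem_filter.1 hY1).1 hXY
      exact Set.disjoint_left.1 h5 hx.1 hy.1
    have h6 : (F'.biUnion fun X => (fin_aux X L).toFinset) ⊆ Bf (0 : Z d) L := by
      intro x hx
      rw [Finset.mem_biUnion] at hx
      obtain ⟨X, _, hx⟩ := hx
      rw [Set.Finite.mem_toFinset] at hx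
      exact mem_Bf.2 hx.2
    have h7 := Finset.card_le_card h6
    rw [card_Bf, h4] at h7
    refine le_trans ?_ h7
    rw [← smul_eq_mul]
    apply Finset.card_nsmul_le_sum
    intro X hX1
    rw [hF', Finset.mem_filter] at hX1
    obtain ⟨hXF, x, hx, hxb⟩ := hX1
    have h8 := count_aux (X := X) (s := b + 1) (e := L) (n := L)
      (fun j hj hj' => (hX X hXF).2 x hx j (by omega) hj') le_rfl
    omega
  have h9 : (F'.card : ℝ) * ((L : ℝ) - b) ≤ ((2 * L + 1 : ℕ) : ℝ) ^ d := by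
    have h10 : ((F'.card * (L - b) : ℕ) : ℝ) ≤ (((2 * L + 1) ^ d : ℕ) : ℝ) := by exact_mod_cast h3
    rw [Nat.cast_mul, Nat.cast_sub hbL.le, Nat.cast_pow] at h10
    exact h10
  refine h1.trans ?_
  rw [le_div_iff₀ (by linarith)]
  calc (F'.card : ℝ) * (t * √t) * ((L : ℝ) - b) = t * √t * (F'.card * ((L : ℝ) - b)) := by ring
    _ ≤ t * √t * ((2 * L + 1 : ℕ) : ℝ) ^ d := mul_le_mul_of_nonneg_left h9 (by positivity)

end

end Pool.Agent.Y606.OA
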